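import Pool.Agent.MP_702fe9_al.h68.Tree

set_option autoImplicit false

namespace Pool.Agent.Results.MP_702fe9_al.RankGradient

open Pool.Agent.MP_702fe9_al.H61 Pool.Agent.MP_702fe9_al.H68

/-- For every odd prime `p` and `ε > 0` there are continuum many pairwise non-isomorphic infinite
two-generated `p`-groups, residually finite `p`-groups, in which abelian subgroups are finite
and the rank gradient is at least `1 - ε`. -/
theorem result (p : ℕ) (hp : p.Prime) (h2 : p ≠ 2) (ε : ℝ) (hε : 0 < ε) :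
    ∃ (G : ℝ → Type) (_ : ∀ t, Group (G t)), (∀ s t, Nonempty (G s ≃* G t) → s = t) ∧
      ∀ t, Infinite (G t) ∧ (∃ a b : G t, Subgroup.closure {a, b} = ⊤) ∧ IsPGroup p (G t) ∧
        (∀ g : G t, g ≠ 1 → ∃ (N : Subgroup (G t)) (_ : N.Normal),
          Finite (G t ⧸ N) ∧ IsPGroup p (G t ⧸ N) ∧ g ∉ N) ∧
        (∀ A : Subgroup (G t), (∀ x ∈ A, ∀ y ∈ A, x * y = y * x) → Finite A) ∧
        ∀ H : Subgroup (G t), H.FiniteIndex → ∀ s : Finset (G t), Subgroup.closure s = H →
          (1 - ε) * H.index + 1 ≤ s.card := by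
  classical
  have : Fact p.Prime := ⟨hp⟩
  have h3 : 3 ≤ p := by
    have := hp.two_le
    omega
  obtain ⟨n0, hn0⟩ := exists_pow_lt_of_lt_one hε (show (1 / 2 : ℝ) < 1 by norm_num)
  obtain ⟨C, hinj, hC⟩ := tree (p := p) h3 n0
  have hM : ∀ σ, (⨅ n, C σ n).Normal := fun σ => Subgroup.normal_iInf_normal (hC σ).1
  obtain ⟨f, hf⟩ := select (fun σ => ⨅ n, C σ n) hinj
  refine ⟨fun t => F ⧸ ⨅ n, C (f t) n, fun _ => inferInstance, hf, fun t => ?_⟩
  obtain ⟨hn, hanti, hlev, hind, htor, hch, v, e, he, hv, hcof⟩ := hC (f t)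
  have hM' := hM (f t)
  have hone : ∀ x : F, x ∈ ⨅ n, C (f t) n ↔ ∀ n, x ∈ C (f t) n := fun x => Subgroup.mem_iInf
  set M := ⨅ n, C (f t) n
  have hsur := QuotientGroup.mk'_surjective M
  have hle : ∀ n, M ≤ C (f t) n := fun n => iInf_le _ n
  have hmap : ∀ (n : ℕ) (x : F),
      (x : F ⧸ M) ∈ (C (f t) n).map (QuotientGroup.mk' M) ↔ x ∈ C (f t) n := fun n x =>
    ⟨fun ⟨y, hy, hyx⟩ => by simpa using mul_mem hy (hle n (QuotientGroup.eq.mp hyx)),
      fun hx => ⟨x, hx, rfl⟩⟩
  have hnorm : ∀ n, ((C (f t) n).map (QuotientGroup.mk' M)).Normal := fun n => (hn n).map _ hsur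
  have hfi : ∀ n, ((C (f t) n).map (QuotientGroup.mk' M)).FiniteIndex := fun n =>
    ⟨ne_zero_of_dvd_ne_zero (hlev n).fin.index_ne_zero (Subgroup.index_map_dvd _ hsur)⟩
  have hP : IsPGroup p (F ⧸ M) := fun x => by
    obtain ⟨y, rfl⟩ := QuotientGroup.mk_surjective x
    obtain ⟨a, ha⟩ := htor y
    exact ⟨a, by rw [← QuotientGroup.mk_pow, QuotientGroup.eq_one_iff]; exact ha⟩
  have hsep : ∀ g : F ⧸ M, g ≠ 1 → ∃ n, g ∉ (C (f t) n).map (QuotientGroup.mk' M) := fun g hg => by
    obtain ⟨y, rfl⟩ := QuotientGroup.mk_surjective g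
    rw [Ne, QuotientGroup.eq_one_iff, hone, not_forall] at hg
    exact hg.imp fun n h h' => h ((hmap n y).mp h')
  have hce := abel hP _ hnorm (fun a b h => Subgroup.map_mono (hanti h)) hfi hsep
    fun n g h hg hgp hc => by
      obtain ⟨g, rfl⟩ := QuotientGroup.mk_surjective g
      obtain ⟨h, rfl⟩ := QuotientGroup.mk_surjective h
      rw [← QuotientGroup.mk_pow, QuotientGroup.eq_one_iff] at hgp
      have h4 : g⁻¹ * (h⁻¹ * g * h) ∈ M := by
        rw [← QuotientGroup.eq_one_iff]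
        simp only [QuotientGroup.mk_mul, QuotientGroup.mk_inv]
        rw [mul_assoc, hc]
        group
      obtain ⟨u, ⟨i, hi⟩, ⟨j, hj⟩⟩ :=
        hch n g h (fun h' => hg ((hmap n g).mpr h')) (hle _ hgp) (hle _ h4)
      exact ⟨u, ⟨i, (hmap n _).mpr hi⟩, ⟨j, (hmap n _).mpr hj⟩⟩
  refine ⟨?_, ⟨QuotientGroup.mk (FreeGroup.of 0), QuotientGroup.mk (FreeGroup.of 1), ?_⟩, hP,
    fun g hg => ?_, hce, fun H hH s hs => ?_⟩
  · by_contra hinf
    rw [not_infinite_iff_finite] at hinf
    have h0 : M.index ≠ 0 := Subgroup.index_ne_zero_of_finite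
    have h4 := hind (M.index + 1)
    have := Nat.le_of_dvd (Nat.pos_of_ne_zero h0) (Subgroup.index_dvd_of_le (hle (M.index + 1 + 1)))
    omega
  · have h := congrArg (Subgroup.map (QuotientGroup.mk' M)) (FreeGroup.closure_range_of (Fin 2))
    rw [MonoidHom.map_closure, Subgroup.map_top_of_surjective _ hsur] at h
    rw [eq_top_iff, ← h]
    apply Subgroup.closure_mono
    rintro _ ⟨_, ⟨i, rfl⟩, rfl⟩
    fin_cases i
    · exact Or.inl rfl
    · exact Or.inr rfl
  · obtain ⟨n, h⟩ := hsep g hg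
    have := hfi n
    have := hnorm n
    exact ⟨_, hnorm n, inferInstance, hP.to_quotient _, h⟩
  · have hfin : (H.comap (QuotientGroup.mk' M)).FiniteIndex :=
      ⟨by rw [Subgroup.index_comap_of_surjective _ hsur]; exact hH.index_ne_zero⟩
    obtain ⟨a, ha⟩ := (hP.to_quotient H.normalCore).exists_card_eq
    have hL : Lev p M (H.comap (QuotientGroup.mk' M)) := ⟨hfin, fun x hx => by
      rw [Subgroup.mem_comap, QuotientGroup.mk'_apply, (QuotientGroup.eq_one_iff x).mpr hx]
      exact one_mem _, a, fun x => H.normalCore_le (by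
        rw [← QuotientGroup.eq_one_iff, map_pow, QuotientGroup.mk_pow, ← ha]
        exact pow_card_eq_one')⟩
    have h4 := grad M v e n0 he hv hcof _ hL (s.image Quotient.out) (by
      have h := Subgroup.comap_map_eq (QuotientGroup.mk' M)
        (Subgroup.closure (s.image Quotient.out : Finset F))
      rw [QuotientGroup.ker_mk', MonoidHom.map_closure, Finset.coe_image, Set.image_image] at h
      simp only [QuotientGroup.mk'_apply, QuotientGroup.out_eq', Set.image_id'] at h
      rw [← hs, Finset.coe_image]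
      exact h)
    rw [Subgroup.index_comap_of_surjective _ hsur] at h4
    have h5 : ((s.image Quotient.out).card : ℝ) ≤ s.card := by exact_mod_cast Finset.card_image_le
    have h6 : (0 : ℝ) ≤ H.index := Nat.cast_nonneg _
    nlinarith

end Pool.Agent.Results.MP_702fe9_al.RankGradient
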